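import Pool.Agent.Helper2_Mader.Public

set_option autoImplicit false

/-!
# `MP_ab2d80_co`: a better lower bound for the number of arcs of Mader-perfect digraphs

`m(k) ≥ m(n) + ⌊5 (k - n) / 2⌋` for all `1 ≤ n ≤ k`; with `n = 1` this is `m(k) ≥ ⌊5 (k - 1) / 2⌋`.

Mader-perfectness is kept when the complete symmetric digraph on three vertices minus an arc is glued
at its middle vertex to any vertex `v` of a Mader-perfect digraph `F` (`maderPerfect_glue` in
`Helper2_Mader/Public.lean`).  This adds two vertices and five arcs.

Proof of the closure theorem.  Let `X` be a maximal set of vertices of the host that is the union of
two acyclic sets.  By induction the rest of the host contains a subdivision of `F`; let `y` be the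
branch vertex of `v`.  For every partition of `X` into two acyclic sets, every class contains a petal,
a path which closes to a directed cycle with `y`.  If petals in different classes are never connected
inside `X`, then swap the two classes on all strong components met by petals of the first class; the
old petals are now in the second class, so the new petals of the first class avoid these components,
and are old petals of the first class, a contradiction.  So two petals in different classes are
connected by a path, and this is the subdivision of the new part.
-/

namespace Pool.Agent.Results.MP_ab2d80_co.FiveHalves

open Pool.Agent.Helper2_Mader

/-- `m(k) ≥ m(n) + ⌊5 (k - n) / 2⌋` for all `1 ≤ n ≤ k`. -/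
theorem result : ∀ n k : ℕ, 1 ≤ n → n ≤ k → m n + 5 * (k - n) / 2 ≤ m k := m_rec

end Pool.Agent.Results.MP_ab2d80_co.FiveHalves
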