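import Pool.Agent.Helper12_Mader.Main

set_option autoImplicit false

/-!
# `MP_ab2d80_co`: an `O(k log k)` upper bound for the number of arcs of a Mader-perfect digraph

`result` says: if every (finite, loopless) digraph `D` with dichromatic number at least `t` contains
a subdivision of the loopless digraph `F` (that is, `t` is at least the Mader number of `F`), then
`F` has at most `601 * t * log t` arcs.  For a Mader-perfect digraph of order `k` one may take
`t = k`, so `m(k) ≤ 601 * k * log k`.

Proof: a random tournament on `m/16` vertices has dichromatic number at least `t`, while for every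
injection of `V(F)` at least `m/16 + 1` arcs of `F` are not mapped to arcs; each of these arcs needs
its own internal vertex.
-/

namespace Pool.Agent.Results.MP_ab2d80_co.MaderArcBound

open Pool.Agent.Helper12_Mader

/-- If every loopless digraph of dichromatic number at least `t` contains a subdivision of the
loopless digraph `F`, then `F` has at most `601 * t * log t` arcs. -/
theorem result (k t : ℕ) (F : Digraph (Fin k)) (hF : ∀ v, ¬ F.Adj v v)
    (H : ∀ (n : ℕ) (D : Digraph (Fin n)), (∀ v, ¬ D.Adj v v) → t ≤ dichromaticNumber D →
      HasSubdivision F D) :
    ({e : Fin k × Fin k | F.Adj e.1 e.2}.ncard : ℝ) ≤ 601 * t * Real.log t :=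
  arcs_le k t F hF H

end Pool.Agent.Results.MP_ab2d80_co.MaderArcBound
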