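import Pool.Agent.Helper12_Mader.Pent

set_option autoImplicit false

/-!
# `MP_ab2d80_co`: Mader-perfect digraphs are not expanders

Let `F` be a digraph on `k` vertices and suppose that every loopless digraph of dichromatic number
at least `t` contains a subdivision of `F` (for a Mader-perfect `F` take `t = k`).  Then `F` has two
disjoint vertex sets `A`, `B` of size at least `s` with at most `2 t - 1 - k` arcs between them (in
both directions together), for every `s` with `2 ⌊(2 t + 3) / 5⌋ + 3 (s - 1) < k`.
For `t = k` one may take `s = ⌊k / 15⌋` and the number of arcs is at most `k - 1`.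

The host is the symmetric digraph obtained from the 5-cycle by blowing up its vertices to complete
symmetric digraphs (`2 t - 1` vertices in total): all its acyclic sets have at most two vertices.
-/

namespace Pool.Agent.Results.MP_ab2d80_co.SparsePair

open Pool.Agent.Helper12_Mader

/-- Linear-sized sparse pairs in digraphs with small Mader number. -/
theorem result (k t s : ℕ) (F : Digraph (Fin k))
    (H : ∀ (n : ℕ) (D : Digraph (Fin n)), (∀ v, ¬ D.Adj v v) → t ≤ dichromaticNumber D →
      HasSubdivision F D) (hs : 2 * ((2 * t + 3) / 5) + 3 * (s - 1) < k) :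
    ∃ A B : Finset (Fin k), Disjoint A B ∧ s ≤ A.card ∧ s ≤ B.card ∧
      {e : Fin k × Fin k | F.Adj e.1 e.2 ∧ ((e.1 ∈ A ∧ e.2 ∈ B) ∨ (e.1 ∈ B ∧ e.2 ∈ A))}.ncard + k
        ≤ 2 * t - 1 :=
  sparse_pair k t s F H hs

end Pool.Agent.Results.MP_ab2d80_co.SparsePair
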